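import Pool.Agent.H887.BK.D2
import Pool.Agent.H425.CoreA

/-!
# BK, part PT: the trace formula for projective hypersurfaces

`q N = ∑_{s ∈ F_q} ∑_x ψ(Tr (s f(x)))`.  The polynomial of the trace formula for `s f` is obtained from
that of `f` by multiplying the coefficients of degree `d k` by `τ(s) ^ k` (`Rel`); summing over `s ≠ 0`
leaves the exponents `v` with `d ∣ |v| + |A|`.  The restricted traces of the two versions of the Dwork
operators agree, as all operators preserve the degree modulo `d`, and the cube formula applies.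
-/

set_option autoImplicit false
set_option linter.unusedSectionVars false
set_option linter.unusedVariables false

namespace Pool.Agent.H935.BK

open MvPolynomial Pool.Agent.H425 Pool.Agent.H887.BK

section Rel

variable {ι : Type} {L : Type} [CommRing L]

/-- `F` has only monomials of degrees divisible by `d`; in `F'` the coefficients of degree `d k` are
multiplied by `σ ^ k` -/
def Rel (d : ℕ) (σ : L) (F F' : MvPolynomial ι L) : Prop :=
  ∃ (J : Type) (T : Finset J) (w : J → (ι →₀ ℕ)) (k : J → ℕ) (r : J → L),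
    (∀ j ∈ T, (w j).degree = d * k j) ∧ F = ∑ j ∈ T, monomial (w j) (r j) ∧
      F' = ∑ j ∈ T, monomial (w j) (σ ^ k j * r j)

theorem Rel.mul {d : ℕ} {σ : L} {F F' G G' : MvPolynomial ι L} (h : Rel d σ F F')
    (h' : Rel d σ G G') : Rel d σ (F * G) (F' * G') := by
  obtain ⟨J, T, w, k, r, h1, rfl, rfl⟩ := h
  obtain ⟨J', T', w', k', r', h1', rfl, rfl⟩ := h'
  refine ⟨J × J', T ×ˢ T', fun j => w j.1 + w' j.2, fun j => k j.1 + k' j.2,
    fun j => r j.1 * r' j.2, ?_, ?_, ?_⟩
  · intro j hj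
    rw [Finset.mem_product] at hj
    rw [map_add, h1 _ hj.1, h1' _ hj.2, mul_add]
  · rw [Finset.sum_mul_sum, Finset.sum_product]
    refine Finset.sum_congr rfl fun j _ => Finset.sum_congr rfl fun j' _ => ?_
    rw [monomial_mul]
  · rw [Finset.sum_mul_sum, Finset.sum_product]
    refine Finset.sum_congr rfl fun j _ => Finset.sum_congr rfl fun j' _ => ?_
    rw [monomial_mul]
    congr 1
    ring

theorem Rel.const {d : ℕ} {σ : L} (c : L) : Rel d σ (C c : MvPolynomial ι L) (C c) := by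
  refine ⟨Unit, {()}, fun _ => 0, fun _ => 0, fun _ => c, ?_, ?_, ?_⟩
  · intro _ _
    simp
  · simp
  · simp

theorem Rel.prod {d : ℕ} {σ : L} {I : Type} (s : Finset I) (F F' : I → MvPolynomial ι L)
    (h : ∀ i ∈ s, Rel d σ (F i) (F' i)) : Rel d σ (∏ i ∈ s, F i) (∏ i ∈ s, F' i) := by
  classical
  induction s using Finset.induction_on with
  | empty =>
    rw [Finset.prod_empty, Finset.prod_empty, ← C_1]
    exact Rel.const 1
  | insert i s hi ih =>
    rw [Finset.prod_insert hi, Finset.prod_insert hi]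
    exact (h i (by simp)).mul (ih fun l hl => h l (by simp [hl]))

theorem Rel.expand {d : ℕ} {σ : L} (q : ℕ) {F F' : MvPolynomial ι L} (h : Rel d (σ ^ q) F F') :
    Rel d σ (MvPolynomial.expand q F) (MvPolynomial.expand q F') := by
  obtain ⟨J, T, w, k, r, h1, rfl, rfl⟩ := h
  refine ⟨J, T, fun j => q • w j, fun j => q * k j, r, ?_, ?_, ?_⟩
  · intro j hj
    rw [map_nsmul, h1 j hj, smul_eq_mul]
    ring
  · rw [map_sum]
    refine Finset.sum_congr rfl fun j _ => ?_
    rw [expand_monomial]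
  · rw [map_sum]
    refine Finset.sum_congr rfl fun j _ => ?_
    rw [expand_monomial, pow_mul]

theorem Rel.coeff {d : ℕ} (hd : 0 < d) {σ : L} {F F' : MvPolynomial ι L} (h : Rel d σ F F')
    (m : ι →₀ ℕ) : MvPolynomial.coeff m F' = σ ^ (m.degree / d) * MvPolynomial.coeff m F := by
  classical
  obtain ⟨J, T, w, k, r, h1, rfl, rfl⟩ := h
  rw [coeff_sum, coeff_sum, Finset.mul_sum]
  refine Finset.sum_congr rfl fun j hj => ?_
  rw [coeff_monomial, coeff_monomial]
  split_ifs with h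
  · rw [← h, h1 j hj, Nat.mul_div_cancel_left _ hd]
  · rw [mul_zero]

theorem Rel.coeff_zero {d : ℕ} {σ : L} {F F' : MvPolynomial ι L} (h : Rel d σ F F')
    (m : ι →₀ ℕ) (hm : ¬ d ∣ m.degree) : MvPolynomial.coeff m F = 0 := by
  classical
  obtain ⟨J, T, w, k, r, h1, rfl, rfl⟩ := h
  rw [coeff_sum]
  refine Finset.sum_eq_zero fun j hj => ?_
  rw [coeff_monomial, if_neg]
  rintro rfl
  exact hm ⟨_, h1 j hj⟩

end Rel

section G

variable {p d : ℕ} [hp : Fact p.Prime] {K R : Type} [Field K] [CommRing R] [IsDomain R]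
  (S : Setup p d K R) {ι : Type} [Fintype ι] [DecidableEq ι]

theorem rel_fs (N : ℕ) (s : ι →₀ ℕ) (hs : s.degree = d) (c c' : R) (σ : S.Q N)
    (h : S.rd N c' = σ * S.rd N c) : Rel d σ (S.fs N s c) (S.fs N s c') := by
  have key : ∀ c : R, S.fs N s c = ∑ j ∈ Finset.range (3 * N + 3),
      monomial (j • s) (S.rd N (S.th j) * S.rd N c ^ j) := by
    intro c
    rw [Setup.fs, Setup.thp, map_sum]
    refine Finset.sum_congr rfl fun j _ => ?_
    rw [Polynomial.aeval_monomial, monomial_pow, algebraMap_eq, C_mul_monomial]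
  refine ⟨ℕ, Finset.range (3 * N + 3), fun j => j • s, fun j => j,
    fun j => S.rd N (S.th j) * S.rd N c ^ j, ?_, key c, ?_⟩
  · intro j _
    rw [map_nsmul, hs, smul_eq_mul, mul_comm]
  · rw [key c']
    refine Finset.sum_congr rfl fun j _ => ?_
    congr 1
    rw [h]
    ring

/-- the polynomial of the trace formula -/
noncomputable def GG (N : ℕ) (f : MvPolynomial ι K) (a : ℕ) : MvPolynomial ι (S.Q N) :=
  ∏ t ∈ Finset.range a, MvPolynomial.expand (p ^ t) (S.Fpoly N (Setup.su f) (S.tc f t) (S.tc f t 0))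

theorem su_C_mul (f : MvPolynomial ι K) (s : K) (hs : s ≠ 0) : Setup.su (C s * f) = Setup.su f := by
  have h : (C s * f).support = f.support := by
    ext m
    rw [mem_support_iff, mem_support_iff, coeff_C_mul]
    constructor
    · intro h h'
      exact h (by rw [h', mul_zero])
    · exact fun h => mul_ne_zero hs h
  rw [Setup.su, Setup.su, h]

theorem tc_C_mul (f : MvPolynomial ι K) (s : K) (t : ℕ) (m : ι →₀ ℕ) :
    S.tc (C s * f) t m = S.tau s ^ (p ^ t) * S.tc f t m := by
  rw [Setup.tc, Setup.tc, coeff_C_mul, map_mul, mul_pow]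

theorem coeff_zero_of_homog (hd : 0 < d) (f : MvPolynomial ι K)
    (hf : ∀ m, coeff m f ≠ 0 → m.degree = d) : coeff 0 f = 0 := by
  by_contra h
  have := hf 0 h
  rw [map_zero] at this
  omega

theorem tc_zero (hd : 0 < d) (f : MvPolynomial ι K) (hf : ∀ m, coeff m f ≠ 0 → m.degree = d)
    (t : ℕ) : S.tc f t 0 = 0 := by
  rw [Setup.tc, coeff_zero_of_homog hd f hf, S.tau_zero, zero_pow (pow_ne_zero _ hp.out.ne_zero)]

theorem rel_G (hd : 0 < d) (N : ℕ) (f : MvPolynomial ι K) (hf : ∀ m, coeff m f ≠ 0 → m.degree = d)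
    (a : ℕ) (s : K) (hs : s ≠ 0) : Rel d (S.rd N (S.tau s)) (GG S N f a) (GG S N (C s * f) a) := by
  refine Rel.prod _ _ _ fun t _ => Rel.expand _ ?_
  rw [Setup.Fpoly, Setup.Fpoly, su_C_mul f s hs, tc_C_mul S f s t 0, tc_zero S hd f hf, mul_zero]
  refine (Rel.const _).mul (Rel.prod _ _ _ fun m hm => ?_)
  apply rel_fs S N m
  · rw [Setup.su, Finset.mem_erase, mem_support_iff] at hm
    exact hf m hm.2
  · rw [tc_C_mul, map_mul, map_pow]

/-- the nonzero elements of the field with `Q` elements -/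
noncomputable def UQ (K : Type) [Field K] (Q : ℕ) : Finset K := Polynomial.nthRootsFinset (Q - 1) (1 : K)

theorem mem_UQ {K : Type} [Field K] {Q : ℕ} (hQ : 2 ≤ Q) (x : K) :
    x ∈ UQ K Q ↔ x ≠ 0 ∧ x ^ Q = x := by
  rw [UQ, Polynomial.mem_nthRootsFinset (by omega)]
  constructor
  · intro h
    refine ⟨?_, ?_⟩
    · rintro rfl
      rw [zero_pow (by omega)] at h
      exact zero_ne_one h
    · calc x ^ Q = x ^ (Q - 1) * x := by rw [← pow_succ]; congr 1; omega
        _ = x := by rw [h, one_mul]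
  · rintro ⟨hx, h⟩
    apply mul_right_cancel₀ hx
    rw [one_mul, ← pow_succ]
    rw [show Q - 1 + 1 = Q by omega]
    exact h

theorem sum_FQ {K : Type} [Field K] {Q : ℕ} (hQ : 2 ≤ Q) {A : Type} [AddCommMonoid A] (g : K → A) :
    ∑ x ∈ FQ K Q, g x = g 0 + ∑ x ∈ UQ K Q, g x := by
  classical
  rw [FQ, UQ, Finset.sum_insert (by
    rw [Polynomial.mem_nthRootsFinset (by omega), zero_pow (by omega)]
    exact zero_ne_one)]

/-- character sums over the multiplicative group -/
theorem sum_tau_units (N Q : ℕ) (hQ : 2 ≤ Q) (ζ : K) (hζ : IsPrimitiveRoot ζ (Q - 1)) (k : ℕ) :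
    ∑ x ∈ UQ K Q, S.rd N (S.tau x) ^ k = if (Q - 1) ∣ k then (Q : S.Q N) - 1 else 0 := by
  have h1 := congrArg (S.rd N) (S.sum_tau Q hQ ζ hζ k)
  rw [map_sum, sum_FQ hQ] at h1
  simp only [map_pow, S.tau_zero, map_zero, map_add, map_neg, apply_ite (S.rd N), map_one,
    map_natCast] at h1
  by_cases hk : k = 0
  · subst hk
    simp only [pow_zero, dvd_zero, if_true, ne_eq, not_true_eq_false, and_false, if_false] at h1 ⊢
    linear_combination h1
  · rw [zero_pow hk, zero_add] at h1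
    rw [h1]
    by_cases h2 : (Q - 1) ∣ k
    · rw [if_pos h2, if_pos ⟨h2, hk⟩, if_pos h2]
      ring
    · rw [if_neg h2, if_neg (fun h => h2 h.1), if_neg h2]
      ring

theorem totalDegree_le_of_homog (f : MvPolynomial ι K) (hf : ∀ m, coeff m f ≠ 0 → m.degree = d) :
    f.totalDegree ≤ d := by
  rw [totalDegree]
  refine Finset.sup_le fun m hm => ?_
  rw [mem_support_iff] at hm
  exact (hf m hm).le

/-- the sum over the multiples of `f` -/
theorem sum_units (hp5 : 5 ≤ p) (hd : 1 ≤ d) (N : ℕ) (f : MvPolynomial ι K)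
    (hf : ∀ m, coeff m f ≠ 0 → m.degree = d) (a M : ℕ) (ha : 1 ≤ a) (hM : 3 * N ≤ M) (ζ : K)
    (hζ : IsPrimitiveRoot ζ (p ^ a - 1)) (hdvd : d ∣ p ^ a - 1) :
    ∑ s ∈ UQ K (p ^ a), ∑ x ∈ Fintype.piFinset (fun _ : ι => FQ K (p ^ a)),
      ∏ t ∈ Finset.range a, eval (fun i => S.rd N (S.tau (x i)) ^ (p ^ t))
        (S.Fpoly N (Setup.su (C s * f)) (S.tc (C s * f) t) (S.tc (C s * f) t 0)) =
      (((p ^ a : ℕ) : S.Q N) - 1) * ∑ A : Finset ι, (-1) ^ A.card * ((p ^ a : ℕ) : S.Q N) ^ (Aᶜ).card *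
        ∑ v ∈ DD ι M, if d ∣ v.degree + A.card then
          coeff ((p ^ a - 1) • (v + oneA A)) (GG S N f a) else 0 := by
  have hQ : 2 ≤ p ^ a := by
    calc 2 ≤ p := hp.out.two_le
      _ = p ^ 1 := (pow_one p).symm
      _ ≤ p ^ a := Nat.pow_le_pow_right hp.out.pos ha
  have hhom : ∀ s : K, ∀ m, coeff m (C s * f) ≠ 0 → m.degree = d := by
    intro s m hm
    apply hf
    intro h
    apply hm
    rw [coeff_C_mul, h, mul_zero]
  have hFm : ∀ (s : K) t, S.Fpoly N (Setup.su (C s * f)) (S.tc (C s * f) t) (S.tc (C s * f) t 0) ∈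
      VV ι (S.Q N) ((p - 1) * M) := by
    intro s t
    refine VV_mono ?_ (S.Fpoly_mem (by omega) hd N _ _ _ (Setup.su_zero _)
      (Setup.su_degree _ (totalDegree_le_of_homog _ (hhom s))))
    have : 1 ≤ p - 1 := by omega
    calc 3 * N ≤ 1 * M := by omega
      _ ≤ _ := Nat.mul_le_mul_right _ this
  have hGm : ∀ s : K, GG S N (C s * f) a ∈ VV ι (S.Q N) ((p ^ a - 1) * M) := fun s =>
    prod_expand_mem hp.out.pos _ (hFm s) a
  have h1 : ∀ (s : K) (x : ι → K), ∏ t ∈ Finset.range a, eval (fun i => S.rd N (S.tau (x i)) ^ (p ^ t))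
        (S.Fpoly N (Setup.su (C s * f)) (S.tc (C s * f) t) (S.tc (C s * f) t 0)) =
        eval (fun i => S.rd N (S.tau (x i))) (GG S N (C s * f) a) := by
    intro s x
    rw [GG, map_prod]
    refine Finset.prod_congr rfl fun t _ => ?_
    rw [eval_expand']
  simp only [h1]
  have h2 : ∀ s ∈ UQ K (p ^ a), ∑ x ∈ Fintype.piFinset (fun _ : ι => FQ K (p ^ a)),
      eval (fun i => S.rd N (S.tau (x i))) (GG S N (C s * f) a) =
      ∑ A : Finset ι, ((-1) ^ A.card * ((p ^ a : ℕ) : S.Q N) ^ (Aᶜ).card) *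
        ∑ v ∈ DD ι M, S.rd N (S.tau s) ^ (((p ^ a - 1) • (v + oneA A)).degree / d) *
          coeff ((p ^ a - 1) • (v + oneA A)) (GG S N f a) := by
    intro s hs
    rw [mem_UQ hQ] at hs
    rw [S.sum_eval N (p ^ a) hQ ζ hζ M _ (hGm s)]
    refine Finset.sum_congr rfl fun A _ => ?_
    congr 1
    refine Finset.sum_congr rfl fun v _ => ?_
    exact (rel_G S (by omega) N f hf a s hs.1).coeff (by omega) _
  rw [Finset.sum_congr rfl h2, Finset.sum_comm, Finset.mul_sum]
  refine Finset.sum_congr rfl fun A _ => ?_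
  rw [← Finset.mul_sum, Finset.sum_comm, mul_left_comm]
  congr 1
  rw [Finset.mul_sum]
  refine Finset.sum_congr rfl fun v _ => ?_
  rw [← Finset.sum_mul, sum_tau_units S N (p ^ a) hQ ζ hζ]
  obtain ⟨r, hr⟩ := hdvd
  have hr0 : 0 < r := by
    rw [Nat.pos_iff_ne_zero]
    rintro rfl
    omega
  have e1 : ((p ^ a - 1) • (v + oneA A)).degree / d = r * (v.degree + A.card) := by
    rw [map_nsmul, map_add, degree_oneA, smul_eq_mul, hr, mul_assoc,
      Nat.mul_div_cancel_left _ (by omega)]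
  have e2 : (p ^ a - 1) ∣ ((p ^ a - 1) • (v + oneA A)).degree / d ↔ d ∣ v.degree + A.card := by
    rw [e1, hr, mul_comm d r]
    exact Nat.mul_dvd_mul_iff_left hr0
  by_cases h : d ∣ v.degree + A.card
  · rw [if_pos (e2.2 h), if_pos h]
  · rw [if_neg (fun h' => h (e2.1 h')), if_neg h, zero_mul, mul_zero]

end G

theorem diag_prodn_conj {m A : Type} [Fintype m] [DecidableEq m] [CommRing A] [IsDomain A]
    (S T : ℕ → Matrix m m A) (D : m → A) (hD : ∀ i, D i ≠ 0)
    (h : ∀ t, Matrix.diagonal D * S t = T t * Matrix.diagonal D) (a : ℕ) (i : m) :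
    (prodn S a) i i = (prodn T a) i i := by
  have h1 : Matrix.diagonal D * prodn S a = prodn T a * Matrix.diagonal D := by
    induction a with
    | zero => rw [prodn, prodn, Matrix.mul_one, Matrix.one_mul]
    | succ a ih => rw [prodn, prodn, ← Matrix.mul_assoc, h a, Matrix.mul_assoc, ih, Matrix.mul_assoc]
  have h2 := congrFun (congrFun h1 i) i
  rw [Matrix.diagonal_mul, Matrix.mul_diagonal] at h2
  exact mul_left_cancel₀ (hD i) (h2.trans (mul_comm _ _))

section

variable {p d : ℕ} [hp : Fact p.Prime] {K R : Type} [Field K] [CommRing R] [IsDomain R]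
  (S : Setup p d K R) {ι : Type} [Fintype ι] [DecidableEq ι]

/-- the diagonal entries in both lattices agree (adapted from `trace_alt_xot`) -/
theorem diag_alt_xot (hp4 : 4 ≤ p) (hd : 1 ≤ d) (N : ℕ) (f : MvPolynomial ι K)
    (hf : f.totalDegree ≤ d) (A : Finset ι) (a M : ℕ) (hM : 3 * N ≤ M) (v : DD ι M) :
    (mat M (compn (S.alt N f A) a)) v v = (mat M (compn (S.xot N f A) a)) v v := by
  have hFm : ∀ t, S.Fpoly N (Setup.su f) (S.tc f t) (S.tc f t 0) ∈ VV ι (S.Q N) ((p - 1) * M) := by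
    intro t
    refine VV_mono ?_ (S.Fpoly_mem (by omega) hd N (Setup.su f) (S.tc f t) (S.tc f t 0)
      (Setup.su_zero f) (Setup.su_degree f hf))
    have : 1 ≤ p - 1 := by omega
    calc 3 * N ≤ 1 * M := by omega
      _ ≤ _ := Nat.mul_le_mul_right _ this
  rw [mat_compn, mat_compn]
  · set A₁ : ℕ → Matrix (DD ι M) (DD ι M) R := fun t v u =>
      S.ker (Setup.su f) (S.tc f t) (v.1 + oneA A) (u.1 + oneA A) with hA₁
    set B₁ : ℕ → Matrix (DD ι M) (DD ι M) R := fun t v u =>
      S.Gk (Setup.su f) (S.tc f t) (v.1 + oneA A) (u.1 + oneA A) with hB₁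
    have h1 : (fun t => mat M (S.alt N f A t)) = fun t => S.kap N f t • (A₁ t).map (S.rd N) := by
      funext t
      ext v u
      rw [mat, S.coeff_alt hp4 N f hf, mul_one]
      rfl
    have h2 : (fun t => mat M (S.xot N f A t)) = fun t => S.kap N f t • (B₁ t).map (S.rd N) := by
      funext t
      ext v u
      rw [mat, Setup.xot, LinearMap.comp_apply, LinearMap.mulLeft_apply, coeff_psi A hp.out.pos,
        coeff_mul_monomial', mul_one]
      rw [Matrix.smul_apply, Matrix.map_apply, smul_eq_mul, hB₁]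
      simp only [Setup.Gk]
      have e1 : u.1 ≤ ix A p v.1 ↔ u.1 + oneA A ≤ p • (v.1 + oneA A) := by
        refine forall_congr' fun i => ?_
        rw [ix_apply, Finsupp.smul_apply, Finsupp.add_apply, Finsupp.add_apply, smul_eq_mul]
        have : oneA A i ≤ p * (v.1 i + oneA A i) := by
          have := hp.out.pos
          nlinarith [Nat.zero_le (v.1 i)]
        omega
      by_cases h : u.1 ≤ ix A p v.1
      · have e2 : ix A p v.1 - u.1 = p • (v.1 + oneA A) - (u.1 + oneA A) := by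
          ext i
          rw [Finsupp.tsub_apply, Finsupp.tsub_apply, ix_apply, Finsupp.smul_apply, Finsupp.add_apply,
            Finsupp.add_apply, smul_eq_mul]
          omega
        rw [if_pos h, if_pos (e1.1 h), S.coeff_Fpoly (by omega) hd N _ _ _ (Setup.su_zero f),
          Setup.kap, e2]
      · rw [if_neg h, if_neg (fun h' => h (e1.2 h')), map_zero, mul_zero]
    rw [h1, h2, prodn_smul_map, prodn_smul_map, Matrix.smul_apply, Matrix.smul_apply,
      Matrix.map_apply, Matrix.map_apply]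
    congr 2
    refine diag_prodn_conj A₁ B₁ (fun v => S.lam ^ v.1.degree)
      (fun v => pow_ne_zero _ S.lam_ne) ?_ a v
    intro t
    ext v u
    rw [Matrix.diagonal_mul, Matrix.mul_diagonal]
    have h4 := (S.ker_spec (by omega) (Setup.su f) (S.tc f t) (Setup.su_zero f)
      (Setup.su_degree f hf) (v.1 + oneA A) (u.1 + oneA A)).2
    rw [map_add, map_add, pow_add, pow_add] at h4
    apply mul_left_cancel₀ (pow_ne_zero (oneA A).degree S.lam_ne)
    simp only [hA₁, hB₁]
    linear_combination h4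
  · intro t P hP
    exact psi_mem_VV A hp.out.pos (hFm t) hP
  · intro t P hP
    exact VV_mono (by omega) (S.alt_mem hp4 N f hf A t P)

theorem coeff_psi_diag {L : Type} [CommRing L] (A : Finset ι) {Q : ℕ} (hQ : 1 ≤ Q)
    (G : MvPolynomial ι L) (v : ι →₀ ℕ) :
    coeff v (psi A Q (G * monomial v 1)) = coeff ((Q - 1) • (v + oneA A)) G := by
  rw [coeff_psi A (by omega), coeff_mul_monomial', mul_one]
  have h1 : v ≤ ix A Q v := by
    intro i
    rw [ix_apply]
    have : v i + oneA A i ≤ Q * (v i + oneA A i) := Nat.le_mul_of_pos_left _ hQ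
    omega
  rw [if_pos h1]
  congr 1
  ext i
  rw [Finsupp.tsub_apply, ix_apply, Finsupp.smul_apply, Finsupp.add_apply, smul_eq_mul, Nat.sub_mul,
    one_mul]
  omega

/-- the coefficients of `GG` as diagonal entries -/
theorem coeff_GG (hp4 : 4 ≤ p) (hd : 1 ≤ d) (N : ℕ) (f : MvPolynomial ι K)
    (hf : f.totalDegree ≤ d) (A : Finset ι) (a M : ℕ) (hM : 3 * N ≤ M) (v : ι →₀ ℕ)
    (hv : v ∈ DD ι M) :
    coeff ((p ^ a - 1) • (v + oneA A)) (GG S N f a) =
      coeff v (compn (S.alt N f A) a (monomial v 1)) := by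
  have h1 := diag_alt_xot S hp4 hd N f hf A a M hM ⟨v, hv⟩
  rw [mat, mat] at h1
  rw [h1, ← coeff_psi_diag A (Nat.one_le_pow _ _ hp.out.pos)]
  congr 1
  exact (compn_psi A hp.out.pos _ a _).symm

end

/-! ## classes of degrees -/

section Classes

variable {ι : Type} [Fintype ι] [DecidableEq ι] {L : Type} [CommRing L]

/-- the projection onto the monomials `w` with `d ∣ |w| + k` -/
noncomputable def cl (d k : ℕ) : MvPolynomial ι L →ₗ[L] MvPolynomial ι L :=
  (basisMonomials ι L).constr L (fun w => if d ∣ w.degree + k then monomial w 1 else 0)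

theorem cl_monomial (d k : ℕ) (w : ι →₀ ℕ) :
    cl d k (monomial w (1 : L)) = if d ∣ w.degree + k then monomial w 1 else 0 := by
  have := (basisMonomials ι L).constr_basis L
    (fun w : ι →₀ ℕ => if d ∣ w.degree + k then monomial w (1 : L) else 0) w
  rw [coe_basisMonomials] at this
  exact this

theorem coeff_cl (d k : ℕ) (P : MvPolynomial ι L) (v : ι →₀ ℕ) :
    coeff v (cl d k P) = if d ∣ v.degree + k then coeff v P else 0 := by
  by_cases hv : d ∣ v.degree + k
  · rw [if_pos hv]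
    have h : (lcoeff L v) ∘ₗ (cl d k) = lcoeff L v := by
      refine linmap_ext fun u => ?_
      rw [LinearMap.comp_apply, cl_monomial, lcoeff_apply, lcoeff_apply]
      split_ifs with hu
      · rfl
      · rw [coeff_zero, coeff_monomial, if_neg]
        rintro rfl
        exact hu hv
    exact LinearMap.congr_fun h P
  · rw [if_neg hv]
    have h : (lcoeff L v) ∘ₗ (cl d k) = 0 := by
      refine linmap_ext fun u => ?_
      rw [LinearMap.comp_apply, cl_monomial, lcoeff_apply, LinearMap.zero_apply]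
      split_ifs with hu
      · rw [coeff_monomial, if_neg]
        rintro rfl
        exact hv hu
      · exact coeff_zero _
    exact LinearMap.congr_fun h P

/-- the operator commutes with the projections -/
def Cm (d : ℕ) (T : MvPolynomial ι L →ₗ[L] MvPolynomial ι L) : Prop :=
  ∀ k P, T (cl d k P) = cl d k (T P)

theorem Cm.of_coeff {d : ℕ} {T : MvPolynomial ι L →ₗ[L] MvPolynomial ι L}
    (h : ∀ u v : ι →₀ ℕ, ¬ (v.degree ≡ u.degree [MOD d]) → coeff v (T (monomial u 1)) = 0) :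
    Cm d T := by
  intro k P
  have h1 : T ∘ₗ cl d k = cl d k ∘ₗ T := by
    refine linmap_ext fun u => ?_
    rw [LinearMap.comp_apply, LinearMap.comp_apply, cl_monomial]
    ext v
    rw [coeff_cl]
    by_cases hv : v.degree ≡ u.degree [MOD d]
    · have e : d ∣ v.degree + k ↔ d ∣ u.degree + k := by
        rw [Nat.dvd_iff_mod_eq_zero, Nat.dvd_iff_mod_eq_zero, Nat.ModEq.add_right k hv]
      by_cases hu : d ∣ u.degree + k
      · rw [if_pos hu, if_pos (e.2 hu)]
      · rw [if_neg hu, if_neg (fun h => hu (e.1 h)), map_zero, coeff_zero]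
    · rw [h u v hv, ite_self]
      split_ifs
      · exact h u v hv
      · rw [map_zero, coeff_zero]
  exact LinearMap.congr_fun h1 P

theorem Cm.comp {d : ℕ} {T T' : MvPolynomial ι L →ₗ[L] MvPolynomial ι L} (h : Cm d T)
    (h' : Cm d T') : Cm d (T ∘ₗ T') := by
  intro k P
  rw [LinearMap.comp_apply, LinearMap.comp_apply, h', h]

theorem Cm.symm {d : ℕ} {E : MvPolynomial ι L ≃ₗ[L] MvPolynomial ι L} (h : Cm d E.toLinearMap) :
    Cm d E.symm.toLinearMap := by
  intro k P
  apply E.injective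
  have h1 := h k (E.symm P)
  change E (cl d k (E.symm P)) = cl d k (E (E.symm P)) at h1
  change E (E.symm (cl d k P)) = E (cl d k (E.symm P))
  rw [h1, E.apply_symm_apply, E.apply_symm_apply]

theorem Cm.compn {d : ℕ} {T : ℕ → (MvPolynomial ι L →ₗ[L] MvPolynomial ι L)} (h : ∀ t, Cm d (T t))
    (a : ℕ) : Cm d (H425.compn T a) := by
  induction a with
  | zero => intro k P; rfl
  | succ a ih => exact (h a).comp ih

/-- polynomials with monomials of degrees in one class -/
def CL (d r : ℕ) (P : MvPolynomial ι L) : Prop :=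
  ∀ m : ι →₀ ℕ, ¬ (m.degree ≡ r [MOD d]) → coeff m P = 0

theorem CL.add {d r : ℕ} {P Q : MvPolynomial ι L} (h : CL d r P) (h' : CL d r Q) :
    CL d r (P + Q) := by
  intro m hm
  rw [coeff_add, h m hm, h' m hm, add_zero]

theorem CL.sum {d r : ℕ} {I : Type} (s : Finset I) (P : I → MvPolynomial ι L)
    (h : ∀ i ∈ s, CL d r (P i)) : CL d r (∑ i ∈ s, P i) := by
  intro m hm
  rw [coeff_sum]
  exact Finset.sum_eq_zero fun i hi => h i hi m hm

theorem CL.mul {d r r' : ℕ} {P Q : MvPolynomial ι L} (h : CL d r P) (h' : CL d r' Q) :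
    CL d (r + r') (P * Q) := by
  intro m hm
  rw [coeff_mul]
  refine Finset.sum_eq_zero fun x hx => ?_
  rw [Finset.HasAntidiagonal.mem_antidiagonal] at hx
  by_cases h1 : x.1.degree ≡ r [MOD d]
  · by_cases h2 : x.2.degree ≡ r' [MOD d]
    · exfalso
      apply hm
      rw [← hx, map_add]
      exact h1.add h2
    · rw [h' _ h2, mul_zero]
  · rw [h _ h1, zero_mul]

theorem CL.monomial {d : ℕ} (w : ι →₀ ℕ) (r : L) : CL d w.degree (MvPolynomial.monomial w r) := by
  intro m hm
  rw [coeff_monomial, if_neg]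
  rintro rfl
  exact hm rfl

theorem CL.congr {d r r' : ℕ} {P : MvPolynomial ι L} (h : CL d r P) (hr : r ≡ r' [MOD d]) :
    CL d r' P := fun m hm => h m fun h1 => hm (h1.trans hr)

theorem CL.pderiv {e r : ℕ} {P : MvPolynomial ι L} (h : CL (e + 1) r P) (i : ι) :
    CL (e + 1) (r + e) (MvPolynomial.pderiv i P) := by
  intro m hm
  rw [coeff_pderiv, h, zero_mul]
  intro h1
  apply hm
  rw [map_add, Finsupp.degree_single] at h1
  have h2 : m.degree + 1 ≡ (r + e) + 1 [MOD (e + 1)] := by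
    refine h1.trans ?_
    rw [add_assoc]
    exact (Nat.add_modEq_right).symm
  exact Nat.ModEq.add_right_cancel' 1 h2

theorem CL.yop {e r : ℕ} {H P : MvPolynomial ι L} (hH : CL (e + 1) 0 H) (h : CL (e + 1) r P)
    (i : ι) : CL (e + 1) (r + e) (H425.yop H i P) := by
  rw [yop_apply]
  refine (h.pderiv i).add ?_
  have := (hH.pderiv i).mul h
  rwa [zero_add, add_comm e r] at this

theorem CL.yp {e : ℕ} {H : MvPolynomial ι L} (hH : CL (e + 1) 0 H) (γ : ι →₀ ℕ) :
    ∀ {r : ℕ} {P : MvPolynomial ι L}, CL (e + 1) r P →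
      CL (e + 1) (r + e * γ.degree) (H425.yp H γ P) := by
  induction γ using Finsupp.induction_linear with
  | zero =>
    intro r P hP
    rw [yp_zero]
    simpa using hP
  | add f g hf hg =>
    intro r P hP
    rw [yp_add, Module.End.mul_apply, map_add, mul_add, add_comm (e * f.degree), ← add_assoc]
    exact hf (hg hP)
  | single i a =>
    rw [yp_single, Finsupp.degree_single]
    induction a with
    | zero =>
      intro r P hP
      simpa using hP
    | succ a ih =>
      intro r P hP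
      rw [pow_succ', Module.End.mul_apply, mul_add, mul_one, ← add_assoc]
      exact CL.yop hH (ih hP) i

theorem Cm_Phi {e : ℕ} (he : 0 < e) {H : MvPolynomial ι L} (hH : CL (e + 1) 0 H)
    {b : (ι → Fin e) → (ι →₀ ℕ)} (hb : ∀ u, (b u).degree = ∑ i, (u i : ℕ)) :
    Cm (e + 1) (Phi H e he b) := by
  apply Cm.of_coeff
  intro u v hv
  rw [Phi_monomial]
  have h1 := CL.yp hH (qt e u) (CL.monomial (d := e + 1) (b (rm e he u)) (1 : L))
  rw [hb, degree_qt_rm] at h1
  exact h1 v hv

end Classes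

section

variable {p d : ℕ} [hp : Fact p.Prime] {K R : Type} [Field K] [CommRing R] [IsDomain R]
  (S : Setup p d K R) {ι : Type} [Fintype ι] [DecidableEq ι]

/-- power series with monomials of degrees divisible by `d` -/
def Sp (d : ℕ) (F : MvPowerSeries ι R) : Prop :=
  ∀ w : ι →₀ ℕ, ¬ d ∣ w.degree → MvPowerSeries.coeff w F = 0

theorem Sp.mul {F G : MvPowerSeries ι R} (hF : Sp d F) (hG : Sp d G) : Sp d (F * G) := by
  intro w hw
  rw [MvPowerSeries.coeff_mul]
  refine Finset.sum_eq_zero fun x hx => ?_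
  rw [Finset.HasAntidiagonal.mem_antidiagonal] at hx
  by_cases h1 : d ∣ x.1.degree
  · by_cases h2 : d ∣ x.2.degree
    · exfalso
      apply hw
      rw [← hx, map_add]
      exact dvd_add h1 h2
    · rw [hG _ h2, mul_zero]
  · rw [hF _ h1, zero_mul]

theorem Sp.one : Sp d (1 : MvPowerSeries ι R) := by
  intro w hw
  rw [MvPowerSeries.coeff_one, if_neg]
  rintro rfl
  apply hw
  rw [map_zero]
  exact dvd_zero _

theorem Sp.prod {T : Type} (s : Finset T) (F : T → MvPowerSeries ι R) (h : ∀ l ∈ s, Sp d (F l)) :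
    Sp d (∏ l ∈ s, F l) := by
  classical
  induction s using Finset.induction_on with
  | empty => simpa using Sp.one
  | insert i s hi ih =>
    rw [Finset.prod_insert hi]
    exact (h i (by simp)).mul (ih fun l hl => h l (by simp [hl]))

theorem Sp_FF (supp : Finset (ι →₀ ℕ)) (c : (ι →₀ ℕ) → R) (hs : ∀ s ∈ supp, s.degree = d) :
    Sp d (S.FF supp c) := by
  apply Sp.prod
  intro s hs1 w hw
  apply S.coeff_Fs_ne
  rintro j rfl
  apply hw
  rw [map_nsmul, hs s hs1, smul_eq_mul]
  exact Dvd.intro_left _ rfl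

theorem ker_zero (hp4 : 4 ≤ p) (hd : 0 < d) (hpd : p ≡ 1 [MOD d]) (supp : Finset (ι →₀ ℕ))
    (c : (ι →₀ ℕ) → R) (h0 : 0 ∉ supp) (hs : ∀ s ∈ supp, s.degree = d) (V U : ι →₀ ℕ)
    (h : ¬ (V.degree ≡ U.degree [MOD d])) : S.ker supp c V U = 0 := by
  have h1 := (S.ker_spec (by omega) supp c h0 (fun s hs1 => (hs s hs1).le) V U).2
  have h2 : S.Gk supp c V U = 0 := by
    rw [Setup.Gk]
    split_ifs with hU
    · apply Sp_FF S supp c hs
      intro hdv
      apply h
      have h3 : (p • V - U).degree + U.degree = p * V.degree := by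
        rw [← map_add, tsub_add_cancel_of_le hU, map_nsmul, smul_eq_mul]
      have h4 : p * V.degree ≡ U.degree [MOD d] := by
        rw [← h3]
        calc (p • V - U).degree + U.degree ≡ 0 + U.degree [MOD d] :=
              Nat.ModEq.add_right _ ((Nat.modEq_zero_iff_dvd).2 hdv)
          _ = U.degree := by rw [zero_add]
      have h5 : p * V.degree ≡ 1 * V.degree [MOD d] := Nat.ModEq.mul_right _ hpd
      rw [one_mul] at h5
      exact h5.symm.trans h4
    · rfl
  rw [h2, mul_zero] at h1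
  rcases mul_eq_zero.1 h1 with h3 | h3
  · exact absurd h3 (pow_ne_zero _ S.lam_ne)
  · exact h3

theorem su_homog (f : MvPolynomial ι K) (hf : ∀ m, coeff m f ≠ 0 → m.degree = d) :
    ∀ s ∈ Setup.su f, s.degree = d := by
  intro s hs
  rw [Setup.su, Finset.mem_erase, mem_support_iff] at hs
  exact hf s hs.2

theorem Cm_alt (hp4 : 4 ≤ p) (hd : 0 < d) (hpd : p ≡ 1 [MOD d]) (N : ℕ) (f : MvPolynomial ι K)
    (hf : ∀ m, coeff m f ≠ 0 → m.degree = d) (A : Finset ι) (t : ℕ) : Cm d (S.alt N f A t) := by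
  apply Cm.of_coeff
  intro u v hv
  rw [S.coeff_alt hp4 N f (totalDegree_le_of_homog f hf), Setup.kb, ker_zero S hp4 hd hpd _ _
    (Setup.su_zero f) (su_homog f hf), map_zero, mul_zero, zero_mul]
  intro h
  apply hv
  rw [map_add, map_add] at h
  exact Nat.ModEq.add_right_cancel' _ h

end

section

variable {p : ℕ} [hp : Fact p.Prime] {K R : Type} [Field K] [CommRing R] [IsDomain R]
  {e : ℕ} {S : Setup p (e + 1) K R} {ι : Type} [Fintype ι] [DecidableEq ι] {N : ℕ}
  {f : MvPolynomial ι K}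

theorem CL_Hh (f : MvPolynomial ι K) (hf : ∀ m, coeff m f ≠ 0 → m.degree = e + 1)
    (c : (ι →₀ ℕ) → R) : CL (e + 1) 0 (S.Hh N (Setup.su f) c) := by
  rw [Setup.Hh]
  apply CL.sum
  intro s hs
  refine (CL.monomial (d := e + 1) s _).congr ?_
  rw [su_homog f hf s hs]
  exact (Nat.modEq_zero_iff_dvd).2 dvd_rfl

variable {b : (ι → Fin e) → (ι →₀ ℕ)}

theorem Cm_EE (hf : ∀ m, coeff m f ≠ 0 → m.degree = e + 1) (D : S.BD N f e b) (t : ℕ) :
    Cm (e + 1) (Setup.EE D t).toLinearMap := by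
  have h := Cm_Phi D.he (CL_Hh (S := S) (N := N) f hf (S.tc f t)) (D.hY t).hb
  intro k P
  exact h k P

/-- the restricted trace -/
noncomputable def rtr {ι L : Type} [Fintype ι] [DecidableEq ι] [CommRing L] (d k M : ℕ)
    (T : MvPolynomial ι L →ₗ[L] MvPolynomial ι L) : L :=
  ∑ v ∈ DD ι M, if d ∣ v.degree + k then coeff v (T (monomial v 1)) else 0

theorem rtr_eq {ι L : Type} [Fintype ι] [DecidableEq ι] [CommRing L] (d k M : ℕ)
    (T : MvPolynomial ι L →ₗ[L] MvPolynomial ι L) :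
    rtr d k M T = (mat M (cl d k ∘ₗ T)).trace := by
  rw [rtr, Matrix.trace, ← Finset.sum_coe_sort (DD ι M)]
  refine Finset.sum_congr rfl fun v _ => ?_
  rw [Matrix.diag_apply, mat, LinearMap.comp_apply, coeff_cl]

theorem cl_mem {ι L : Type} [Fintype ι] [DecidableEq ι] [CommRing L] (d k : ℕ) {M : ℕ}
    {P : MvPolynomial ι L} (hP : P ∈ VV ι L M) : cl d k P ∈ VV ι L M := by
  intro m hm
  rw [coeff_cl, hP m hm, ite_self]

theorem cl_gop (hf : ∀ m, coeff m f ≠ 0 → m.degree = e + 1) (D : S.BD N f e b) (A : Finset ι)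
    (a : ℕ) (h : S.tc f a = S.tc f 0) (k : ℕ) (P : MvPolynomial ι (S.Q N)) :
    cl (e + 1) k (compn (Setup.gop D A) a P) =
      (Setup.EE D 0).symm (cl (e + 1) k (compn (S.alt N f A) a (Setup.EE D 0 P))) := by
  rw [Setup.compn_gop, Setup.EE_congr D h]
  exact ((Cm_EE hf D 0).symm k _).symm

theorem rtr_gop (hf : ∀ m, coeff m f ≠ 0 → m.degree = e + 1) (D : S.BD N f e b) (A : Finset ι)
    (a M : ℕ) (hM : N ≤ M) (h : S.tc f a = S.tc f 0) (k : ℕ) :
    rtr (e + 1) k M (compn (Setup.gop D A) a) = rtr (e + 1) k M (compn (S.alt N f A) a) := by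
  have hp5 := D.hp5
  rw [rtr_eq, rtr_eq]
  have h1 : cl (e + 1) k ∘ₗ compn (Setup.gop D A) a = (Setup.EE D 0).symm.toLinearMap ∘ₗ
      ((cl (e + 1) k ∘ₗ compn (S.alt N f A) a) ∘ₗ (Setup.EE D 0).toLinearMap) := by
    refine LinearMap.ext fun P => ?_
    exact cl_gop hf D A a h k P
  have hE : ∀ P ∈ VV ι (S.Q N) M, (Setup.EE D 0).toLinearMap P ∈ VV ι (S.Q N) M :=
    fun P hP => Setup.EE_mem D 0 hP
  have hT0 : ∀ P ∈ VV ι (S.Q N) M, compn (S.alt N f A) a P ∈ VV ι (S.Q N) M :=
    compn_mem _ (fun t P _ => VV_mono hM (S.alt_mem (by omega) N f D.hf A t P)) a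
  have hT : ∀ P ∈ VV ι (S.Q N) M, (cl (e + 1) k ∘ₗ compn (S.alt N f A) a) P ∈ VV ι (S.Q N) M := by
    intro P hP
    rw [LinearMap.comp_apply]
    exact cl_mem _ _ (hT0 P hP)
  have hT1 : ∀ P ∈ VV ι (S.Q N) M, ((cl (e + 1) k ∘ₗ compn (S.alt N f A) a) ∘ₗ
      (Setup.EE D 0).toLinearMap) P ∈ VV ι (S.Q N) M := by
    intro P hP
    rw [LinearMap.comp_apply]
    exact hT _ (hE P hP)
  have h2 : (Setup.EE D 0).toLinearMap ∘ₗ (Setup.EE D 0).symm.toLinearMap = LinearMap.id := by
    refine LinearMap.ext fun P => ?_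
    exact (Setup.EE D 0).apply_symm_apply P
  have h3 : mat M (Setup.EE D 0).toLinearMap * mat M (Setup.EE D 0).symm.toLinearMap = 1 := by
    rw [← mat_comp (M := M) (Setup.EE D 0).toLinearMap (Setup.EE D 0).symm.toLinearMap
      (fun P hP => Setup.EE_symm_mem D 0 hP), h2, mat_id]
  rw [h1, mat_comp _ _ hT1, mat_comp _ _ hE, Matrix.trace_mul_comm, Matrix.mul_assoc, h3,
    Matrix.mul_one]

/-- the cube formula for the restricted traces -/
theorem cube_rtr (D : S.BD N f e b) (hf : ∀ m, coeff m f ≠ 0 → m.degree = e + 1)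
    (hfp : ∀ s, coeff s f ^ p = coeff s f) (a M : ℕ) (ha : 1 ≤ a) (hM : N ≤ M) :
    ∑ u ∈ Finset.univ.filter (fun u : ι → Fin e => (e + 1) ∣ wt u), ((Setup.Bt D 0) ^ a) u u =
      ∑ B : Finset ι, (-((p ^ a : ℕ) : S.Q N)) ^ B.card *
        rtr (e + 1) (Finset.univ \ B).card M (compn (S.alt N f (Finset.univ \ B)) a) := by
  have htc : S.tc f a = S.tc f 0 := by
    funext s
    have h1 : ∀ a : ℕ, coeff s f ^ (p ^ a) = coeff s f := by
      intro a
      induction a with
      | zero => rw [pow_zero, pow_one]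
      | succ a ih => rw [pow_succ, pow_mul, ih, hfp]
    rw [Setup.tc, Setup.tc, ← map_pow, h1, pow_zero, pow_one]
  have hcube := cube_formula M e D.he ((p ^ a : ℕ) : S.Q N)
    (fun A w => if (e + 1) ∣ w.degree + A.card then
      coeff w (compn (Setup.gop D A) a (monomial w 1)) else 0) (by
      intro A w hw
      beta_reduce
      rw [Setup.compn_gop_mem D A a ha _ w (by omega), ite_self]) (by
      intro A i hi w
      have h1 : (monomial (Finsupp.single i e + w) (1 : S.Q N)) = X i ^ e * monomial w 1 := by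
        rw [X_pow_eq_monomial, monomial_mul, mul_one]
      have h2 : (e + 1) ∣ (Finsupp.single i e + w).degree + (insert i A).card ↔
          (e + 1) ∣ w.degree + A.card := by
        rw [map_add, Finsupp.degree_single, Finset.card_insert_of_notMem hi]
        have : e + w.degree + (A.card + 1) = w.degree + A.card + (e + 1) := by ring
        rw [this]
        exact Nat.dvd_add_self_right
      beta_reduce
      by_cases h3 : (e + 1) ∣ w.degree + A.card
      · rw [if_pos h3, if_pos (h2.2 h3), h1, Setup.compn_gop_X D A i hi, coeff_smul,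
          X_pow_eq_monomial, coeff_monomial_mul, one_mul, smul_eq_mul]
      · rw [if_neg h3, if_neg (fun h => h3 (h2.1 h)), mul_zero])
  beta_reduce at hcube
  have hBt : Setup.Bt D = fun _ => Setup.Bt D 0 := by
    funext t
    induction t with
    | zero => rfl
    | succ t ih => rw [Setup.Bt_periodic D 1 (by simpa using hfp), ih]
  have hprod : prodn (Setup.Bt D) a = (Setup.Bt D 0) ^ a := by
    have h1 := Setup.prodn_mul (Setup.Bt D) 1 (fun t => by rw [hBt]) a
    rw [one_mul] at h1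
    rw [h1]
    congr 1
    rw [prodn, prodn, Matrix.mul_one]
  rw [Finset.sum_filter]
  have hL : ∀ u : ι → Fin e, (if (e + 1) ∣ wt u then ((Setup.Bt D 0) ^ a) u u else 0) =
      if (e + 1) ∣ (emb u).degree + (Finset.univ : Finset ι).card then
        coeff (emb u) (compn (Setup.gop D Finset.univ) a (monomial (emb u) 1)) else 0 := by
    intro u
    rw [degree_emb, Finset.card_univ, Setup.block_compn, hprod]
    rfl
  rw [Finset.sum_congr rfl (fun u _ => hL u), hcube]
  refine Finset.sum_congr rfl fun B _ => ?_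
  rw [← rtr_gop hf D _ a M hM htc]
  rfl

end

section

variable {p : ℕ} [hp : Fact p.Prime] {K : Type} [Field K] [CharP K p]

/-- the trace -/
def Tr (p a : ℕ) {K : Type} [Field K] (y : K) : K := ∑ t ∈ Finset.range a, y ^ (p ^ t)

theorem Tr_add (a : ℕ) (x y : K) : Tr p a (x + y) = Tr p a x + Tr p a y := by
  rw [Tr, Tr, Tr, ← Finset.sum_add_distrib]
  refine Finset.sum_congr rfl fun t _ => ?_
  exact add_pow_char_pow x y p t

theorem natCast_pow_p (n t : ℕ) : ((n : K)) ^ (p ^ t) = n := by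
  induction t with
  | zero => rw [pow_zero, pow_one]
  | succ t ih =>
    rw [pow_succ, pow_mul, ih]
    have := (map_natCast (frobenius K p) n)
    rwa [frobenius_def] at this

theorem Tr_natCast_mul (a n : ℕ) (x : K) : Tr p a ((n : K) * x) = n * Tr p a x := by
  rw [Tr, Tr, Finset.mul_sum]
  refine Finset.sum_congr rfl fun t _ => ?_
  rw [mul_pow, natCast_pow_p]

theorem hQ2 (p : ℕ) [hp : Fact p.Prime] {a : ℕ} (ha : 1 ≤ a) : 2 ≤ p ^ a := by
  calc 2 ≤ p := hp.out.two_le
    _ = p ^ 1 := (pow_one p).symm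
    _ ≤ p ^ a := Nat.pow_le_pow_right hp.out.pos ha

theorem add_mem_FQ {a : ℕ} (ha : 1 ≤ a) {x y : K} (hx : x ∈ FQ K (p ^ a)) (hy : y ∈ FQ K (p ^ a)) :
    x + y ∈ FQ K (p ^ a) := by
  rw [mem_FQ (hQ2 p ha)] at *
  rw [add_pow_char_pow, hx, hy]

theorem natCast_mul_mem_FQ {a : ℕ} (ha : 1 ≤ a) {x : K} (n : ℕ) (hx : x ∈ FQ K (p ^ a)) :
    (n : K) * x ∈ FQ K (p ^ a) := by
  rw [mem_FQ (hQ2 p ha)] at *
  rw [mul_pow, natCast_pow_p, hx]

theorem card_FQ {a : ℕ} (ha : 1 ≤ a) (ζ : K) (hζ : IsPrimitiveRoot ζ (p ^ a - 1)) :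
    (FQ K (p ^ a)).card = p ^ a := by
  have h := sum_FQ (K := K) (hQ2 p ha) (fun _ => 1)
  rw [Finset.sum_const, Finset.sum_const, smul_eq_mul, mul_one, smul_eq_mul, mul_one, UQ,
    hζ.card_nthRootsFinset] at h
  have := hQ2 p ha
  omega

theorem exists_Tr_ne {a : ℕ} (ha : 1 ≤ a) (ζ : K) (hζ : IsPrimitiveRoot ζ (p ^ a - 1)) :
    ∃ y ∈ FQ K (p ^ a), Tr p a y ≠ 0 := by
  classical
  by_contra hcon
  push Not at hcon
  let T : Polynomial K := ∑ t ∈ Finset.range a, Polynomial.X ^ (p ^ t)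
  have hT0 : T ≠ 0 := by
    intro h
    have h1 : T.coeff 1 = 1 := by
      simp only [T, Polynomial.finsetSum_coeff, Polynomial.coeff_X_pow]
      rw [Finset.sum_eq_single 0]
      · simp
      · intro t _ ht
        rw [if_neg]
        intro h1
        have := Nat.one_lt_pow ht hp.out.one_lt
        omega
      · intro h
        exact absurd (Finset.mem_range.2 ha) h
    rw [h] at h1
    simp at h1
  have hdeg : T.natDegree ≤ p ^ (a - 1) := by
    apply Polynomial.natDegree_sum_le_of_forall_le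
    intro t ht
    rw [Polynomial.natDegree_X_pow]
    rw [Finset.mem_range] at ht
    exact Nat.pow_le_pow_right hp.out.pos (by omega)
  have hsub : FQ K (p ^ a) ⊆ T.roots.toFinset := by
    intro y hy
    rw [Multiset.mem_toFinset, Polynomial.mem_roots hT0, Polynomial.IsRoot]
    have := hcon y hy
    simp only [T, Polynomial.eval_finsetSum, Polynomial.eval_pow, Polynomial.eval_X]
    exact this
  have h1 := Finset.card_le_card hsub
  rw [card_FQ ha ζ hζ] at h1
  have h2 := (Multiset.toFinset_card_le T.roots).trans T.card_roots'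
  have h3 : p ^ (a - 1) < p ^ a := Nat.pow_lt_pow_right hp.out.one_lt (by omega)
  omega

theorem exists_Tr_one {a : ℕ} (ha : 1 ≤ a) (ζ : K) (hζ : IsPrimitiveRoot ζ (p ^ a - 1)) :
    ∃ y ∈ FQ K (p ^ a), Tr p a y = 1 := by
  obtain ⟨y, hy, hy0⟩ := exists_Tr_ne (p := p) ha ζ hζ
  obtain ⟨c, hc⟩ := exists_nat_trace p y a ((mem_FQ (hQ2 p ha) y).1 hy)
  have hTr : Tr p a y = (c : K) := hc
  have hcp : ¬ p ∣ c := by
    intro h
    apply hy0
    rw [hTr, (CharP.cast_eq_zero_iff K p c).2 h]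
  obtain ⟨c', -, hc'⟩ := Nat.exists_mul_mod_eq_one_of_coprime
    (((Nat.Prime.coprime_iff_not_dvd hp.out).2 hcp).symm) hp.out.one_lt
  refine ⟨(c' : K) * y, natCast_mul_mem_FQ ha c' hy, ?_⟩
  rw [Tr_natCast_mul, hTr, ← Nat.cast_mul, ← Nat.cast_one, CharP.natCast_eq_natCast K p, mul_comm]
  rw [Nat.ModEq, hc', Nat.mod_eq_of_lt hp.out.one_lt]

theorem char_sum_zero {a : ℕ} (ha : 1 ≤ a) (ζ : K) (hζ : IsPrimitiveRoot ζ (p ^ a - 1))
    {A : Type} [CommRing A] (z : A) (hz : z ^ p = 1) (hz0 : ∑ i ∈ Finset.range p, z ^ i = 0)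
    (c : K → ℕ) (hc : ∀ y ∈ FQ K (p ^ a), Tr p a y = (c y : K)) :
    ∑ y ∈ FQ K (p ^ a), z ^ c y = 0 := by
  classical
  obtain ⟨y0, hy0, hy1⟩ := exists_Tr_one (p := p) ha ζ hζ
  have hmod : ∀ n : ℕ, z ^ n = z ^ (n % p) := by
    intro n
    conv_lhs => rw [← Nat.div_add_mod n p, pow_add, pow_mul, hz, one_pow, one_mul]
  rw [← Finset.sum_fiberwise_of_maps_to (s := FQ K (p ^ a)) (t := Finset.range p)
    (g := fun y => c y % p) (fun y _ => Finset.mem_range.2 (Nat.mod_lt _ hp.out.pos))]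
  have h1 : ∀ j ∈ Finset.range p, ∑ y ∈ (FQ K (p ^ a)).filter (fun y => c y % p = j), z ^ c y =
      (((FQ K (p ^ a)).filter (fun y => c y % p = 0)).card : A) * z ^ j := by
    intro j hj
    have h2 : ∑ y ∈ (FQ K (p ^ a)).filter (fun y => c y % p = j), z ^ c y =
        ∑ y ∈ (FQ K (p ^ a)).filter (fun y => c y % p = j), z ^ j := by
      refine Finset.sum_congr rfl fun y hy => ?_
      rw [Finset.mem_filter] at hy
      rw [hmod, hy.2]
    rw [h2, Finset.sum_const, nsmul_eq_mul]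
    congr 2
    have hcj : ∀ y ∈ FQ K (p ^ a), ∀ i < p, (c y % p = i ↔ Tr p a y = (i : K)) := by
      intro y hy i hi
      rw [hc y hy, CharP.natCast_eq_natCast K p, Nat.ModEq, Nat.mod_eq_of_lt hi]
    symm
    refine Finset.card_bij (fun y _ => y + (j : K) * y0) ?_ ?_ ?_
    · intro y hy
      rw [Finset.mem_filter] at hy ⊢
      have hm := add_mem_FQ ha hy.1 (natCast_mul_mem_FQ ha j hy0)
      refine ⟨hm, ?_⟩
      rw [hcj _ hm j (Finset.mem_range.1 hj), Tr_add, Tr_natCast_mul, hy1,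
        (hcj y hy.1 0 hp.out.pos).1 hy.2]
      simp
    · intro y _ y' _ h
      exact add_right_cancel h
    · intro y hy
      rw [Finset.mem_filter] at hy
      -- subtract `j y0`, written as adding `(p - j) y0`
      have hjp := Finset.mem_range.1 hj
      have hm := add_mem_FQ ha hy.1 (natCast_mul_mem_FQ ha (p - j) hy0)
      refine ⟨y + ((p - j : ℕ) : K) * y0, ?_, ?_⟩
      · rw [Finset.mem_filter]
        refine ⟨hm, ?_⟩
        rw [hcj _ hm 0 hp.out.pos, Tr_add, Tr_natCast_mul, hy1,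
          (hcj y hy.1 j hjp).1 hy.2, mul_one, ← Nat.cast_add, Nat.add_sub_cancel' hjp.le,
          CharP.cast_eq_zero]
        simp
      · have : (((p - j : ℕ) : K) + (j : K)) = 0 := by
          rw [← Nat.cast_add, Nat.sub_add_cancel hjp.le, CharP.cast_eq_zero]
        rw [add_assoc, ← add_mul, this, zero_mul, add_zero]
  rw [Finset.sum_congr rfl h1, ← Finset.mul_sum, hz0, mul_zero]

end

section

variable {p d : ℕ} [hp : Fact p.Prime] {K R : Type} [Field K] [CharP K p] [CommRing R] [IsDomain R]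
  (S : Setup p d K R) {ι : Type} [Fintype ι] [DecidableEq ι]

/-- `q` times the number of points as a sum of characters -/
theorem Npts_sum (hp5 : 5 ≤ p) (hd : 1 ≤ d) (N : ℕ) (f : MvPolynomial ι K)
    (a : ℕ) (ha : 1 ≤ a) (hfa : ∀ s, coeff s f ^ (p ^ a) = coeff s f) (ζ : K)
    (hζ : IsPrimitiveRoot ζ (p ^ a - 1)) :
    ∑ s ∈ FQ K (p ^ a), ∑ x ∈ Fintype.piFinset (fun _ : ι => FQ K (p ^ a)),
      ∏ t ∈ Finset.range a, eval (fun i => S.rd N (S.tau (x i)) ^ (p ^ t))
        (S.Fpoly N (Setup.su (C s * f)) (S.tc (C s * f) t) (S.tc (C s * f) t 0)) =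
      ((p ^ a * Npts p f a : ℕ) : S.Q N) := by
  classical
  have hQ := hQ2 p ha
  have hmem : ∀ x : ι → K, x ∈ Fintype.piFinset (fun _ : ι => FQ K (p ^ a)) ↔
      ∀ i, x i ^ (p ^ a) = x i := by
    intro x
    rw [Fintype.mem_piFinset]
    exact forall_congr' fun i => mem_FQ hQ (x i)
  have hev : ∀ x : ι → K, (∀ i, x i ^ (p ^ a) = x i) → eval x f ^ (p ^ a) = eval x f := by
    intro x hx
    rw [eval_eq', sum_pow_char_pow p a]
    refine Finset.sum_congr rfl fun s _ => ?_
    rw [mul_pow, hfa, ← Finset.prod_pow]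
    congr 1
    refine Finset.prod_congr rfl fun i _ => ?_
    rw [← pow_mul, mul_comm, pow_mul, hx]
  have hcf : ∀ s ∈ FQ K (p ^ a), ∀ m, coeff m (C s * f) ^ (p ^ a) = coeff m (C s * f) := by
    intro s hs m
    rw [mem_FQ hQ] at hs
    rw [coeff_C_mul, mul_pow, hs, hfa]
  choose! c hc using fun (y : K) (hy : y ^ (p ^ a) = y) => exists_nat_trace p y a hy
  rw [Finset.sum_comm]
  have h1 : ∀ x ∈ Fintype.piFinset (fun _ : ι => FQ K (p ^ a)), ∑ s ∈ FQ K (p ^ a),
      ∏ t ∈ Finset.range a, eval (fun i => S.rd N (S.tau (x i)) ^ (p ^ t))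
        (S.Fpoly N (Setup.su (C s * f)) (S.tc (C s * f) t) (S.tc (C s * f) t 0)) =
      if eval x f = 0 then ((p ^ a : ℕ) : S.Q N) else 0 := by
    intro x hx
    rw [hmem] at hx
    by_cases h0 : eval x f = 0
    · rw [if_pos h0]
      have h2 : ∀ s ∈ FQ K (p ^ a), ∏ t ∈ Finset.range a,
          eval (fun i => S.rd N (S.tau (x i)) ^ (p ^ t))
          (S.Fpoly N (Setup.su (C s * f)) (S.tc (C s * f) t) (S.tc (C s * f) t 0)) = 1 := by
        intro s hs
        rw [S.char_poly_identity hp5 hd N a (C s * f) (hcf s hs) x hx 0, pow_zero]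
        refine (Finset.sum_eq_zero fun t _ => ?_).trans Nat.cast_zero.symm
        rw [map_mul, h0, mul_zero, zero_pow (pow_ne_zero _ hp.out.ne_zero)]
      rw [Finset.sum_congr rfl h2, Finset.sum_const, nsmul_eq_mul, mul_one, card_FQ ha ζ hζ]
    · rw [if_neg h0]
      have h2 : ∀ s ∈ FQ K (p ^ a), ∏ t ∈ Finset.range a,
          eval (fun i => S.rd N (S.tau (x i)) ^ (p ^ t))
          (S.Fpoly N (Setup.su (C s * f)) (S.tc (C s * f) t) (S.tc (C s * f) t 0)) =
          S.zet N ^ c (s * eval x f) := by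
        intro s hs
        rw [mem_FQ hQ] at hs
        apply S.char_poly_identity hp5 hd N a (C s * f) (hcf s ((mem_FQ hQ s).2 hs)) x hx
        rw [map_mul, eval_C]
        apply hc
        rw [mul_pow, hs, hev x hx]
      rw [Finset.sum_congr rfl h2]
      have h3 := char_sum_zero (p := p) ha ζ hζ (S.zet N) (S.zet_pow (by omega) hd N)
        (S.zet_cyclo hp5 hd N) c (fun y hy => hc y ((mem_FQ hQ y).1 hy))
      rw [← h3]
      refine Finset.sum_bij (fun s _ => s * eval x f) ?_ ?_ ?_ ?_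
      · intro s hs
        rw [mem_FQ hQ] at hs ⊢
        rw [mul_pow, hs, hev x hx]
      · intro s _ s' _ h
        exact mul_right_cancel₀ h0 h
      · intro y hy
        refine ⟨y * (eval x f)⁻¹, ?_, ?_⟩
        · rw [mem_FQ hQ] at hy ⊢
          rw [mul_pow, inv_pow, hy, hev x hx]
        · rw [mul_assoc, inv_mul_cancel₀ h0, mul_one]
      · intro s _
        rfl
  rw [Finset.sum_congr rfl h1, ← Finset.sum_filter, Finset.sum_const, nsmul_eq_mul]
  have h4 : Npts p f a = ((Fintype.piFinset (fun _ : ι => FQ K (p ^ a))).filter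
      (fun x => eval x f = 0)).card := by
    rw [Npts]
    refine Nat.subtype_card _ fun x => ?_
    rw [Finset.mem_filter, hmem]
  rw [h4]
  push_cast
  ring

/-- the contribution of `s = 0` -/
theorem sum_zero (hp5 : 5 ≤ p) (hd : 1 ≤ d) (N : ℕ) (f : MvPolynomial ι K)
    (a : ℕ) (ha : 1 ≤ a) (ζ : K) (hζ : IsPrimitiveRoot ζ (p ^ a - 1)) :
    ∑ x ∈ Fintype.piFinset (fun _ : ι => FQ K (p ^ a)),
      ∏ t ∈ Finset.range a, eval (fun i => S.rd N (S.tau (x i)) ^ (p ^ t))
        (S.Fpoly N (Setup.su (C 0 * f)) (S.tc (C 0 * f) t) (S.tc (C 0 * f) t 0)) =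
      ((p ^ (a * Fintype.card ι) : ℕ) : S.Q N) := by
  have hQ := hQ2 p ha
  have h2 : ∀ x ∈ Fintype.piFinset (fun _ : ι => FQ K (p ^ a)), ∏ t ∈ Finset.range a,
      eval (fun i => S.rd N (S.tau (x i)) ^ (p ^ t))
      (S.Fpoly N (Setup.su (C 0 * f)) (S.tc (C 0 * f) t) (S.tc (C 0 * f) t 0)) = 1 := by
    intro x hx
    rw [Fintype.mem_piFinset] at hx
    rw [S.char_poly_identity hp5 hd N a (C 0 * f) (fun m => by
      rw [coeff_C_mul, zero_mul, zero_pow (by omega)]) x (fun i => (mem_FQ hQ (x i)).1 (hx i)) 0,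
      pow_zero]
    refine (Finset.sum_eq_zero fun t _ => ?_).trans Nat.cast_zero.symm
    rw [map_mul, eval_C, zero_mul, zero_pow (pow_ne_zero _ hp.out.ne_zero)]
  rw [Finset.sum_congr rfl h2, Finset.sum_const, nsmul_eq_mul, mul_one, Fintype.card_piFinset,
    Finset.prod_const, card_FQ ha ζ hζ, Finset.card_univ, ← pow_mul]

end

theorem coeff_form_ne {ι : Type} [Fintype ι] [DecidableEq ι] {K : Type} [Field K] (d : ℕ)
    (c : (ι →₀ ℕ) → K) (m : ι →₀ ℕ) (h : coeff m (form d c) ≠ 0) : m.degree = d := by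
  by_contra hm
  apply h
  rw [form, coeff_sum]
  refine Finset.sum_eq_zero fun s hs => ?_
  rw [mem_Sd] at hs
  rw [coeff_monomial, if_neg]
  rintro rfl
  exact hm hs

theorem coeff_form {ι : Type} [Fintype ι] [DecidableEq ι] {K : Type} [Field K] (d : ℕ)
    (c : (ι →₀ ℕ) → K) (m : ι →₀ ℕ) : coeff m (form d c) = if m.degree = d then c m else 0 := by
  rw [form, coeff_sum]
  simp only [coeff_monomial]
  rw [Finset.sum_ite_eq']
  simp only [mem_Sd]

theorem h_PT : Pool.Agent.H887.BK.S_PT := by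
  intro ι _ _ p e hp K R _ _ _ _ _ S N c hc hpd D a ha
  set f := form (e + 1) c with hfdef
  have hp5 := D.hp5
  have hf : ∀ m, coeff m f ≠ 0 → m.degree = e + 1 := fun m hm => coeff_form_ne (e + 1) c m hm
  have hfp : ∀ s, coeff s f ^ p = coeff s f := by
    intro s
    rw [hfdef, coeff_form]
    split_ifs
    · exact hc s
    · exact zero_pow hp.out.ne_zero
  have hfa : ∀ s, coeff s f ^ (p ^ a) = coeff s f := by
    intro s
    have h1 : ∀ a : ℕ, coeff s f ^ (p ^ a) = coeff s f := by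
      intro a
      induction a with
      | zero => rw [pow_zero, pow_one]
      | succ a ih => rw [pow_succ, pow_mul, ih, hfp]
    exact h1 a
  obtain ⟨ζ, hζ⟩ := Setup.exists_prim (K := K) (p := p) a ha
  have hdvd : (e + 1) ∣ p ^ a - 1 := by
    have h1 : p ^ a ≡ 1 ^ a [MOD (e + 1)] := hpd.pow a
    rw [one_pow] at h1
    exact (Nat.modEq_iff_dvd' (Nat.one_le_pow _ _ hp.out.pos)).1 h1.symm
  have hQ := hQ2 p ha
  have hA := Npts_sum S hp5 (by omega) N f a ha hfa ζ hζ
  rw [sum_FQ hQ, sum_zero S hp5 (by omega) N f a ha ζ hζ,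
    sum_units S hp5 (by omega) N f hf a (3 * N) ha le_rfl ζ hζ hdvd] at hA
  rw [← hA, cube_rtr D hf hfp a (3 * N) ha (by omega)]
  congr 1
  rw [mul_assoc, mul_left_comm]
  congr 1
  rw [Finset.mul_sum]
  refine Fintype.sum_bijective (fun A : Finset ι => Aᶜ) compl_bijective _ _ fun A => ?_
  rw [← Finset.compl_eq_univ_sdiff, compl_compl, neg_pow ((p ^ a : ℕ) : S.Q N)]
  have h5 : A.card + (Aᶜ).card = Fintype.card ι := Finset.card_add_card_compl A
  have h6 : (-1 : S.Q N) ^ Fintype.card ι * (-1) ^ (Aᶜ).card = (-1) ^ A.card := by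
    rw [← h5, pow_add, mul_assoc, ← mul_pow]
    simp
  have h7 : ∑ v ∈ DD ι (3 * N), (if (e + 1) ∣ v.degree + A.card then
      coeff ((p ^ a - 1) • (v + oneA A)) (GG S N f a) else 0) =
      rtr (e + 1) A.card (3 * N) (compn (S.alt N f A) a) := by
    rw [rtr]
    refine Finset.sum_congr rfl fun v hv => ?_
    rw [coeff_GG S (by omega) (by omega) N f D.hf A a (3 * N) le_rfl v hv]
  rw [h7, ← h6]
  ring

end Pool.Agent.H935.BK
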